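import Pool.Agent.H211.CH.Stm

set_option autoImplicit false

open Polynomial

namespace Pool.Agent.H224.CH211

open Pool.Agent.H211.CH

universe u

theorem t_SYM (K : Type u) : S_SYM K := by
  classical
  intro R _ E _ φ p q s t hp hprod
  set n : ℕ := s.card with hn
  set N : ℕ := q.natDegree with hN
  set p' : (R[X])[X] := p.map (C : R →+* R[X]) with hp'
  set q' : (R[X])[X] := C (X : R[X]) - q.map (C : R →+* R[X]) with hq'
  set Φ₀ : R[X] := resultant p' q' n N with hΦ₀
  set Q : E[X] := ∏ i ∈ s, (X - C ((q.map φ).eval (t i))) with hQ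
  have hQm : Q.Monic := monic_prod_of_monic _ _ fun i _ => monic_X_sub_C _
  have hQd : Q.natDegree = n := by
    rw [hQ, natDegree_prod_of_monic _ _ fun i _ => monic_X_sub_C _]
    simp [hn]
  have hpm : p'.map (mapRingHom φ) = ∏ i ∈ s, (X - C (C (t i))) := by
    have h1 : p'.map (mapRingHom φ) = (p.map φ).map (C : E →+* E[X]) := by
      rw [hp', Polynomial.map_map, Polynomial.map_map]
      congr 1
      ext a
      simp
    rw [h1, hprod, Polynomial.map_prod]
    simp
  have hqm : q'.map (mapRingHom φ) = C (X : E[X]) - (q.map φ).map (C : E →+* E[X]) := by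
    have h1 : (q.map (C : R →+* R[X])).map (mapRingHom φ) = (q.map φ).map (C : E →+* E[X]) := by
      rw [Polynomial.map_map, Polynomial.map_map]
      congr 1
      ext a
      simp
    rw [hq', Polynomial.map_sub, h1]
    simp
  have hqd : (C (X : E[X]) - (q.map φ).map (C : E →+* E[X])).natDegree ≤ N := by
    refine (natDegree_sub_le _ _).trans ?_
    rw [natDegree_C]
    exact max_le (Nat.zero_le _) (natDegree_map_le.trans natDegree_map_le)
  have hΦQ : Φ₀.map φ = Q := by
    have h1 : Φ₀.map φ = mapRingHom φ Φ₀ := rfl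
    rw [h1, hΦ₀, ← resultant_map_map, hpm, hqm]
    have hd : (∏ i ∈ s, (X - C (C (t i)) : (E[X])[X])).natDegree = n := by
      rw [natDegree_prod_of_monic _ _ fun i _ => monic_X_sub_C _]
      simp [hn]
    have h2 := resultant_prod_left s (fun i => (X - C (C (t i)) : (E[X])[X]))
      (C (X : E[X]) - (q.map φ).map (C : E →+* E[X])) N (by simp) hqd
    rw [hd] at h2
    rw [h2, hQ]
    refine Finset.prod_congr rfl fun i _ => ?_
    rw [natDegree_X_sub_C, resultant_X_sub_C_left _ _ _ hqd]
    simp [eval_map]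
  refine ⟨X ^ n + ∑ k ∈ Finset.range n, C (Φ₀.coeff k) * X ^ k, ?_, ?_⟩
  · refine monic_X_pow_add ?_
    rw [← Polynomial.mem_degreeLT]
    refine Submodule.sum_mem _ fun k hk => ?_
    rw [Polynomial.mem_degreeLT]
    exact (degree_C_mul_X_pow_le k _).trans_lt (by exact_mod_cast Finset.mem_range.1 hk)
  · rw [← hΦQ]
    have hdeg : (Φ₀.map φ).natDegree = n := by rw [hΦQ, hQd]
    have hmon : (Φ₀.map φ).Monic := by rw [hΦQ]; exact hQm
    conv_rhs => rw [hmon.as_sum, hdeg]
    simp [Polynomial.map_sum]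

end Pool.Agent.H224.CH211
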